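import Pool.Agent.Helper93_FL.AStmts

/-!
# Equality in the Boolean valued universe is a congruence (module A1)
-/

namespace Pool.Agent.FL.H9

universe u

variable {B : Type u} [CompleteBooleanAlgebra B]

theorem beq_mk {α : Type u} (A : α → BSet B) (b : α → B) {α' : Type u} (A' : α' → BSet B)
    (b' : α' → B) : beq (.mk α A b) (.mk α' A' b') =
    (⨅ i, b i ⇨ ⨆ j, b' j ⊓ beq (A i) (A' j)) ⊓ (⨅ j, b' j ⇨ ⨆ i, b i ⊓ beq (A i) (A' j)) := by
  rw [beq]

theorem bmem_mk (x : BSet B) {α : Type u} (A : α → BSet B) (b : α → B) :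
    bmem x (.mk α A b) = ⨆ i, b i ⊓ beq x (A i) := by
  rw [bmem]

theorem beq_refl (x : BSet B) : beq x x = ⊤ := by
  induction x with
  | mk α A b ih =>
    rw [beq_mk, eq_top_iff]
    refine le_inf ?_ ?_
    · refine le_iInf fun i => ?_
      rw [le_himp_iff, top_inf_eq]
      refine le_iSup_of_le i ?_
      rw [ih i, inf_top_eq]
    · refine le_iInf fun i => ?_
      rw [le_himp_iff, top_inf_eq]
      refine le_iSup_of_le i ?_
      rw [ih i, inf_top_eq]

theorem beq_symm (x : BSet B) : ∀ y : BSet B, beq x y = beq y x := by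
  induction x with
  | mk α A b ih =>
    rintro ⟨α', A', b'⟩
    rw [beq_mk, beq_mk, inf_comm]
    simp only [ih]

theorem beq_mem_left {α : Type u} (A : α → BSet B) (b : α → B) (y : BSet B) (i : α) :
    b i ⊓ beq (.mk α A b) y ≤ bmem (A i) y := by
  obtain ⟨α', A', b'⟩ := y
  rw [beq_mk, bmem_mk]
  have h : (⨅ i, b i ⇨ ⨆ j, b' j ⊓ beq (A i) (A' j)) ≤ b i ⇨ ⨆ j, b' j ⊓ beq (A i) (A' j) :=
    iInf_le _ i
  calc b i ⊓ _ ≤ b i ⊓ (b i ⇨ ⨆ j, b' j ⊓ beq (A i) (A' j)) :=
        inf_le_inf_left _ (inf_le_left.trans h)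
    _ ≤ _ := by rw [inf_himp]; exact inf_le_right

theorem beq_mem_right (x : BSet B) {α : Type u} (A : α → BSet B) (b : α → B) (j : α) :
    b j ⊓ beq x (.mk α A b) ≤ bmem (A j) x := by
  rw [beq_symm]
  exact beq_mem_left A b x j

theorem beq_trans (x : BSet B) : ∀ y z : BSet B, beq x y ⊓ beq y z ≤ beq x z := by
  induction x with
  | mk α A b ih =>
    rintro ⟨β, Y, c⟩ ⟨γ, Z, d⟩
    have key1 : ∀ i, b i ⊓ (beq (.mk α A b) (.mk β Y c) ⊓ beq (.mk β Y c) (.mk γ Z d)) ≤
        ⨆ k, d k ⊓ beq (A i) (Z k) := by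
      intro i
      have h1 : b i ⊓ beq (.mk α A b) (.mk β Y c) ≤ ⨆ j, c j ⊓ beq (A i) (Y j) := by
        have := beq_mem_left A b (.mk β Y c) i
        rwa [bmem_mk] at this
      rw [← inf_assoc]
      refine (inf_le_inf_right _ h1).trans ?_
      rw [iSup_inf_eq]
      refine iSup_le fun j => ?_
      have h2 : c j ⊓ beq (.mk β Y c) (.mk γ Z d) ≤ ⨆ k, d k ⊓ beq (Y j) (Z k) := by
        have := beq_mem_left Y c (.mk γ Z d) j
        rwa [bmem_mk] at this
      have h3 : c j ⊓ beq (A i) (Y j) ⊓ beq (.mk β Y c) (.mk γ Z d) =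
          beq (A i) (Y j) ⊓ (c j ⊓ beq (.mk β Y c) (.mk γ Z d)) := by
        ac_rfl
      rw [h3]
      refine (inf_le_inf_left _ h2).trans ?_
      rw [inf_iSup_eq]
      refine iSup_le fun k => le_iSup_of_le k ?_
      have h4 : beq (A i) (Y j) ⊓ (d k ⊓ beq (Y j) (Z k)) =
          d k ⊓ (beq (A i) (Y j) ⊓ beq (Y j) (Z k)) := by ac_rfl
      rw [h4]
      exact inf_le_inf_left _ (ih i _ _)
    have key2 : ∀ k, d k ⊓ (beq (.mk α A b) (.mk β Y c) ⊓ beq (.mk β Y c) (.mk γ Z d)) ≤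
        ⨆ i, b i ⊓ beq (A i) (Z k) := by
      intro k
      have h1 : d k ⊓ beq (.mk β Y c) (.mk γ Z d) ≤ ⨆ j, c j ⊓ beq (Y j) (Z k) := by
        have := beq_mem_right (.mk β Y c) Z d k
        rw [bmem_mk] at this
        simpa only [beq_symm (Z k)] using this
      have h0 : d k ⊓ (beq (.mk α A b) (.mk β Y c) ⊓ beq (.mk β Y c) (.mk γ Z d)) =
          beq (.mk α A b) (.mk β Y c) ⊓ (d k ⊓ beq (.mk β Y c) (.mk γ Z d)) := by ac_rfl
      rw [h0]
      refine (inf_le_inf_left _ h1).trans ?_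
      rw [inf_iSup_eq]
      refine iSup_le fun j => ?_
      have h2 : c j ⊓ beq (.mk α A b) (.mk β Y c) ≤ ⨆ i, b i ⊓ beq (A i) (Y j) := by
        have := beq_mem_right (.mk α A b) Y c j
        rw [bmem_mk] at this
        simpa only [beq_symm (Y j)] using this
      have h3 : beq (.mk α A b) (.mk β Y c) ⊓ (c j ⊓ beq (Y j) (Z k)) =
          beq (Y j) (Z k) ⊓ (c j ⊓ beq (.mk α A b) (.mk β Y c)) := by ac_rfl
      rw [h3]
      refine (inf_le_inf_left _ h2).trans ?_
      rw [inf_iSup_eq]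
      refine iSup_le fun i => le_iSup_of_le i ?_
      have h4 : beq (Y j) (Z k) ⊓ (b i ⊓ beq (A i) (Y j)) =
          b i ⊓ (beq (A i) (Y j) ⊓ beq (Y j) (Z k)) := by ac_rfl
      rw [h4]
      exact inf_le_inf_left _ (ih i _ _)
    rw [beq_mk A b Z d]
    refine le_inf (le_iInf fun i => ?_) (le_iInf fun k => ?_)
    · rw [le_himp_iff, inf_comm]; exact key1 i
    · rw [le_himp_iff, inf_comm]; exact key2 k

theorem bmem_congr_left (x y z : BSet B) : beq x y ⊓ bmem x z ≤ bmem y z := by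
  obtain ⟨γ, Z, d⟩ := z
  rw [bmem_mk, bmem_mk, inf_iSup_eq]
  refine iSup_le fun k => le_iSup_of_le k ?_
  have h4 : beq x y ⊓ (d k ⊓ beq x (Z k)) = d k ⊓ (beq y x ⊓ beq x (Z k)) := by
    rw [beq_symm x y]; ac_rfl
  rw [h4]
  exact inf_le_inf_left _ (beq_trans _ _ _)

theorem bmem_congr_right (x y z : BSet B) : beq y z ⊓ bmem x y ≤ bmem x z := by
  obtain ⟨β, Y, c⟩ := y
  rw [bmem_mk, inf_iSup_eq]
  refine iSup_le fun j => ?_
  have h4 : beq (.mk β Y c) z ⊓ (c j ⊓ beq x (Y j)) = beq x (Y j) ⊓ (c j ⊓ beq (.mk β Y c) z) := by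
    ac_rfl
  rw [h4]
  refine (inf_le_inf_left _ (beq_mem_left Y c z j)).trans ?_
  rw [beq_symm x (Y j)]
  exact bmem_congr_left _ _ _

theorem bmem_congr {c : B} {x x' y y' : BSet B} (h1 : c ≤ beq x x') (h2 : c ≤ beq y y') :
    c ⊓ bmem x y ≤ bmem x' y' := by
  have h3 : c ⊓ bmem x y ≤ beq x x' ⊓ bmem x y := inf_le_inf_right _ h1
  have h4 : c ⊓ bmem x y ≤ beq y y' := inf_le_left.trans h2
  exact (le_inf h4 (h3.trans (bmem_congr_left _ _ _))).trans (bmem_congr_right _ _ _)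

theorem beq_congr {c : B} {x x' y y' : BSet B} (h1 : c ≤ beq x x') (h2 : c ≤ beq y y') :
    c ⊓ beq x y ≤ beq x' y' := by
  have h3 : c ⊓ beq x y ≤ beq x' x ⊓ beq x y := by
    rw [beq_symm x' x]; exact inf_le_inf_right _ h1
  have h4 : c ⊓ beq x y ≤ beq y y' := inf_le_left.trans h2
  exact (le_inf (h3.trans (beq_trans _ _ _)) h4).trans (beq_trans _ _ _)

theorem upd_le (s : ℕ → BSet B) (i : ℕ) (a a' : BSet B) (k : ℕ) :
    beq a a' ≤ beq (Function.update s i a k) (Function.update s i a' k) := by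
  by_cases h : k = i
  · subst h; simp
  · simp [Function.update_of_ne h, beq_refl]

theorem val_congr (φ : Fml) : ∀ (s : ℕ → BSet B) (i : ℕ) (a a' : BSet B),
    beq a a' ⊓ φ.val (Function.update s i a) ≤ φ.val (Function.update s i a') := by
  induction φ with
  | mem k l => intro s i a a'; exact bmem_congr (upd_le s i a a' k) (upd_le s i a a' l)
  | eq k l => intro s i a a'; exact beq_congr (upd_le s i a a' k) (upd_le s i a a' l)
  | bot => intro s i a a'; exact inf_le_right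
  | imp φ ψ h1 h2 =>
    intro s i a a'
    show beq a a' ⊓ (φ.val _ ⇨ ψ.val _) ≤ (φ.val _ ⇨ ψ.val _)
    rw [le_himp_iff]
    have h3 : beq a a' ⊓ (φ.val (Function.update s i a) ⇨ ψ.val (Function.update s i a)) ⊓
        φ.val (Function.update s i a') ≤ beq a a' ⊓ φ.val (Function.update s i a) := by
      refine le_inf (inf_le_left.trans inf_le_left) ?_
      have h4 := h1 s i a' a
      rw [beq_symm a' a] at h4
      refine le_trans ?_ h4
      exact inf_le_inf_right _ inf_le_left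
    have h5 : beq a a' ⊓ (φ.val (Function.update s i a) ⇨ ψ.val (Function.update s i a)) ⊓
        φ.val (Function.update s i a') ≤ ψ.val (Function.update s i a) := by
      refine (le_inf (inf_le_left.trans inf_le_right) (h3.trans inf_le_right)).trans ?_
      rw [inf_comm, inf_himp]; exact inf_le_right
    exact (le_inf (inf_le_left.trans inf_le_left) h5).trans (h2 s i a a')
  | all k φ h =>
    intro s i a a'
    show beq a a' ⊓ (⨅ c : BSet B, φ.val _) ≤ ⨅ c : BSet B, φ.val _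
    refine le_iInf fun c => ?_
    refine (inf_le_inf_left _ (iInf_le _ c)).trans ?_
    by_cases hk : k = i
    · subst hk
      rw [Function.update_idem, Function.update_idem]
      exact inf_le_right
    · rw [Function.update_comm (Ne.symm hk), Function.update_comm (Ne.symm hk)]
      exact h _ i a a'

theorem mem_self {α : Type u} (A : α → BSet B) (b : α → B) (i : α) :
    b i ≤ bmem (A i) (.mk α A b) := by
  rw [bmem_mk]
  refine le_iSup_of_le i ?_
  rw [beq_refl, inf_top_eq]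

theorem bext (a b : BSet B) :
    (⨅ c : BSet B, ((bmem c a ⇨ bmem c b) ⊓ (bmem c b ⇨ bmem c a))) ≤ beq a b := by
  obtain ⟨α, A, f⟩ := a
  obtain ⟨β, A', f'⟩ := b
  rw [beq_mk]
  refine le_inf (le_iInf fun i => ?_) (le_iInf fun j => ?_)
  · rw [le_himp_iff, ← bmem_mk]
    refine (inf_le_inf (iInf_le _ (A i)) (mem_self A f i)).trans ?_
    refine (inf_le_inf_right _ inf_le_left).trans ?_
    rw [inf_comm, inf_himp]; exact inf_le_right
  · rw [le_himp_iff]
    have h : (⨆ i, f i ⊓ beq (A i) (A' j)) = bmem (A' j) (.mk α A f) := by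
      rw [bmem_mk]; simp only [beq_symm (A' j)]
    rw [h]
    refine (inf_le_inf (iInf_le _ (A' j)) (mem_self A' f' j)).trans ?_
    refine (inf_le_inf_right _ inf_le_right).trans ?_
    rw [inf_comm, inf_himp]; exact inf_le_right

theorem bounded_sup {α : Type u} (A : α → BSet B) (b : α → B) (f : BSet B → B)
    (hf : ∀ a a', beq a a' ⊓ f a ≤ f a') :
    (⨆ a : BSet B, bmem a (.mk α A b) ⊓ f a) = ⨆ i, b i ⊓ f (A i) := by
  apply le_antisymm
  · refine iSup_le fun a => ?_
    rw [bmem_mk, iSup_inf_eq]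
    refine iSup_le fun i => le_iSup_of_le i ?_
    rw [inf_assoc]
    exact inf_le_inf_left _ (hf _ _)
  · refine iSup_le fun i => le_iSup_of_le (A i) ?_
    exact inf_le_inf_right _ (mem_self A b i)

/-- Module A1. -/
theorem a1 : A1Stmt := by
  intro B _
  exact ⟨beq_refl, beq_symm, beq_trans, bmem_congr_left, bmem_congr_right, val_congr, bext,
    fun α A b f hf => bounded_sup A b f hf⟩

end Pool.Agent.FL.H9
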