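import Pool.Agent.Helper9_FL.KL3

/-!
# The bad nodes argument, conclusion (module F3 KL)
-/

open MeasureTheory Set

namespace Pool.Agent.FL.H9

/-- A finite set containing the nodes of length `n` of all good trees. -/
def lev : ℕ → Finset Node
  | 0 => {[]}
  | n + 1 => (lev n ×ˢ Finset.range (sz n)).image (fun x => x.1 ++ [x.2])

theorem length_of_mem_lev {n : ℕ} : ∀ {σ : Node}, σ ∈ lev n → σ.length = n := by
  induction n with
  | zero => intro σ h; simp only [lev, Finset.mem_singleton] at h; simp [h]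
  | succ n ih =>
    intro σ h
    simp only [lev, Finset.mem_image, Finset.mem_product] at h
    obtain ⟨x, ⟨h1, -⟩, rfl⟩ := h
    simp [ih h1]

theorem mem_lev {σ : Node} (h : σ ∈ full) : σ ∈ lev σ.length := by
  induction σ using List.reverseRecOn with
  | nil => simp [lev]
  | append_singleton l a ih =>
    obtain ⟨h1, h2⟩ := full_append h
    have h3 : (l ++ [a]).length = l.length + 1 := by simp
    rw [h3]
    simp only [lev, Finset.mem_image, Finset.mem_product, Finset.mem_range]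
    exact ⟨(l, a), ⟨ih h1, h2⟩, rfl⟩

/-- Module F3. -/
theorem kl (_hP : PMStmt) (_hA : ApiStmt) (hC : ConstStmt) : KLStmt := by
  classical
  intro I _ _ J hJ j hj hBR p hpB n k K' hk hn D hD1 _ hD3 r hr hrB
  obtain ⟨r0, hr0, hr0B, F, hF⟩ := thin_const hC hrB (β := Finset Node)
    (fun y => (lev n).filter (fun σ => σ ∈ p.T j y)) (by
      intro b
      have h1 : {y : Pt I | (lev n).filter (fun σ => σ ∈ p.T j y) = b} =
          ⋂ σ : Node, {y | (σ ∈ lev n ∧ σ ∈ p.T j y) ↔ σ ∈ b} := by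
        ext y
        simp only [mem_ofPred_eq, mem_iInter, Finset.ext_iff, Finset.mem_filter]
      rw [h1]
      refine MeasurableSet.iInter fun σ => ?_
      have hm := measurableSet_mem_of (p.meas j) σ
      by_cases h2 : σ ∈ lev n <;> by_cases h3 : σ ∈ b <;> simp only [h2, h3, true_and,
        false_and, iff_true, iff_false]
      · exact hm
      · exact hm.compl
      · exact MeasurableSet.empty
      · exact MeasurableSet.univ) (by
      intro y y' h
      show (lev n).filter (fun σ => σ ∈ p.T j y) = (lev n).filter (fun σ => σ ∈ p.T j y')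
      rw [p.T_congr h])
  have hFm : ∀ y ∈ r0.body, ∀ σ, σ ∈ F ↔ σ.length = n ∧ σ ∈ p.T j y := by
    intro y hy σ
    rw [← hF y hy, Finset.mem_filter]
    constructor
    · rintro ⟨h2, h3⟩
      exact ⟨length_of_mem_lev h2, h3⟩
    · rintro ⟨h2, h3⟩
      refine ⟨?_, h3⟩
      rw [← h2]
      exact mem_lev ((p.good j y).mem_full h3)
  obtain ⟨y0, hy0⟩ := r0.body_nonempty
  have hFne : F.Nonempty := by
    obtain ⟨t, ht⟩ := (p.good j y0).body_nonempty
    exact ⟨pre t n, (hFm y0 hy0 _).2 ⟨length_pre t n, ht n⟩⟩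
  have hstep : ∀ F' : Finset Node, F' ⊆ F → ∃ q ≤ r0, q.Below (Iio j) ∧
      ∀ s ∈ F', GP p J j k K' D q s := by
    intro F'
    induction F' using Finset.induction_on with
    | empty => exact fun _ => ⟨r0, le_refl _, hr0B, fun a ha => by simp at ha⟩
    | insert s F' _ ih =>
      intro hF'
      obtain ⟨q, h1, h2, h3⟩ := ih ((Finset.subset_insert _ _).trans hF')
      have hsF : s ∈ F := hF' (Finset.mem_insert_self _ _)
      obtain ⟨q', h4, h5, h6⟩ := main_claim (p := p) (J := J) (j := j) (n := n) (k := k)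
        (K' := K') (D := D) hC hj hJ hBR hpB hk hn hD1 hD3
        (r := q) (le_trans (le_trans h1 hr0) hr) h2 (s := s)
        ((hFm y0 hy0 s).1 hsF).1.ge (fun y hy => ((hFm y (h1 hy) s).1 hsF).2)
      refine ⟨q', le_trans h4 h1, h5, fun b hb => ?_⟩
      rcases Finset.mem_insert.1 hb with rfl | hb
      · exact h6
      · exact (h3 b hb).mono hj hJ h5 h4
  obtain ⟨r', h1, h2, h3⟩ := hstep F (Finset.Subset.refl _)
  obtain ⟨p', g1, g2, g3, g4, ⟨n', g5⟩, E, g6, g7, g8⟩ := amalg (p := p) (J := J) (k := k)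
    (K' := K') (D := D) hj hJ h2 F hFne n
    (fun s hs => ((hFm y0 hy0 s).1 hs).1) h3
  have hb : ∀ y ∈ p'.body, y ∈ r'.body := fun y hy => mem_body_of_below h2 fun i hi => by
    rw [← g3 i hi y]; exact hy i
  refine ⟨r', le_trans h1 hr0, h2, p', g1, g2, g3, ?_, ⟨n', fun y hy => g5 y (hb y hy)⟩,
    E, g6, g7, g8⟩
  intro y hy
  have hyr := hb y hy
  obtain ⟨k1, k2, k3⟩ := g4 y hyr
  refine ⟨fun σ hσ => ⟨fun h => Cond.T_subset g1 hy j h, fun h => ?_⟩,
    fun σ hσ hl => k3 σ hσ hl⟩
  obtain ⟨t, ht1, ht2⟩ := (p.good j y).exists_branch h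
  have h5 : pre t n ∈ F := (hFm y (h1 hyr) _).2 ⟨length_pre t n, ht1 n⟩
  have h6 : σ <+: pre t n := by rw [← ht2]; exact pre_isPrefix t hσ
  exact (p'.good j y).mem_of_isPrefix h6 (k1 _ h5)

end Pool.Agent.FL.H9
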