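import Pool.Agent.Helper93_FL.BStmts

/-!
# The bad nodes argument, part 1: good pairs, amalgamation (module F3 KL)
-/

open MeasureTheory Set

namespace Pool.Agent.FL.H9

/-! ### Measurability of case distinctions over countably many nodes -/

theorem meas_piece {Ω β : Type*} [MeasurableSpace Ω] [MeasurableSpace β] (g : Ω → Node)
    (hg : ∀ σ, MeasurableSet {ω | g ω = σ}) (F : Node → Ω → β) (hF : ∀ σ, Measurable (F σ)) :
    Measurable (fun ω => F (g ω) ω) := by
  intro s hs
  have : (fun ω => F (g ω) ω) ⁻¹' s = ⋃ σ : Node, {ω | g ω = σ} ∩ (F σ) ⁻¹' s := by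
    ext ω
    simp
  rw [this]
  exact MeasurableSet.iUnion fun σ => (hg σ).inter (hF σ hs)

theorem measurable_setNode {Ω : Type*} [MeasurableSpace Ω] {f : Ω → Set Node}
    (h : ∀ σ, MeasurableSet {ω | σ ∈ f ω}) : Measurable f := by
  rw [measurable_set_iff]
  intro σ
  exact measurableSet_setOfPred.1 (h σ)

theorem measurableSet_mem_of {Ω : Type*} [MeasurableSpace Ω] {f : Ω → Set Node}
    (h : Measurable f) (σ : Node) : MeasurableSet {ω | σ ∈ f ω} :=
  h (measurableSet_mem_node σ)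

variable {I : Type} [LinearOrder I]

/-! ### Conditions below an initial segment -/

theorem mem_body_of_below {r : Cond I} {L : Set I} (hr : r.Below L) {y : Pt I}
    (h : ∀ i ∈ L, y i ∈ FL.body (r.T i y)) : y ∈ r.body := by
  intro i
  by_cases hi : i ∈ L
  · exact h i hi
  · rw [hr i hi y, body_full]; trivial

theorem body_congr' {r : Cond I} {j : I} (hr : r.Below (Iio j)) {y y' : Pt I}
    (h : ∀ i < j, y i = y' i) (hy : y ∈ r.body) : y' ∈ r.body := by
  refine mem_body_of_below hr fun i hi => ?_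
  have hi' : i < j := hi
  rw [← h i hi', r.T_congr (y' := y) (fun l hl => (h l (hl.trans hi')).symm)]
  exact hy i

theorem depOn_body {r : Cond I} {j : I} (hr : r.Below (Iio j)) : DepOn (Iio j) r.body :=
  fun _ _ h => ⟨body_congr' hr h, body_congr' hr fun i hi => (h i hi).symm⟩

theorem mem_restr_body {p : Cond I} {j : I} {y : Pt I} :
    y ∈ (p.restr (Iio j)).body ↔ ∀ i < j, y i ∈ FL.body (p.T i y) := by
  constructor
  · intro h i hi
    have := h i
    simpa [Cond.restr, hi] using this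
  · intro h i
    by_cases hi : i < j
    · simpa [Cond.restr, hi] using h i hi
    · simp [Cond.restr, hi]

theorem restr_below (p : Cond I) (j : I) : (p.restr (Iio j)).Below (Iio j) := by
  intro i hi y
  simp only [Cond.restr]
  rw [if_neg hi]

theorem le_restr (p : Cond I) (j : I) : p ≤ p.restr (Iio j) := by
  intro y hy
  rw [mem_restr_body]
  exact fun i _ => hy i

theorem isLowerSet_Iio' (j : I) : IsLowerSet (Iio j) := isLowerSet_Iio j

/-- A point of a stronger condition below `j` extends to a point of `p`. -/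
theorem exists_agree [WellFoundedLT I] {p r : Cond I} {j : I} (h : r ≤ p.restr (Iio j)) {y : Pt I}
    (hy : y ∈ r.body) : ∃ y' ∈ p.body, ∀ i < j, y' i = y i := by
  have h1 := mem_restr_body.1 (h hy)
  obtain ⟨y', h2, h3⟩ := p.exists_ext (Iio j) (isLowerSet_Iio' j) y (fun i hi => h1 i hi)
  exact ⟨y', h2, fun i hi => h3 i hi⟩

theorem exists_agree' [WellFoundedLT I] {p r : Cond I} {j : I}
    (h : ∀ i < j, ∀ y, p.T i y = r.T i y) {y : Pt I}
    (hy : y ∈ r.body) : ∃ y' ∈ p.body, ∀ i < j, y' i = y i := by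
  obtain ⟨y', h2, h3⟩ := p.exists_ext (Iio j) (isLowerSet_Iio' j) y (fun i hi => by
    rw [h i hi y]; exact hy i)
  exact ⟨y', h2, fun i hi => h3 i hi⟩

/-! ### Good pairs -/

/-- The pair `(r, s)` is good: below `r` and above the node `s` at the coordinate `j` one can
decide `D` essentially. -/
def GP (p : Cond I) (J : Set I) (j : I) (k K' : ℕ) (D : Set (Cond I)) (r : Cond I) (s : Node) :
    Prop :=
  ∃ p' : Cond I, p' ≤ p ∧ p'.Below J ∧ (∀ i < j, ∀ y, p'.T i y = r.T i y) ∧
    (∀ y ∈ r.body, s ∈ p'.T j y ∧ (∀ σ ∈ p'.T j y, σ <+: s ∨ s <+: σ) ∧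
      ∀ σ ∈ p'.T j y, s <+: σ → (σ.length + 2) ^ (k - 1) ≤ (suc (p'.T j y) σ).card) ∧
    (∃ n', ∀ y ∈ r.body, NormGE (p'.T j y) n' K') ∧
    ∃ E : Set (Cond I), E.Finite ∧ E ⊆ D ∧ p'.body ⊆ ⋃ d ∈ E, d.body

theorem GP.mono {p : Cond I} {J : Set I} {j : I} {k K' : ℕ} {D : Set (Cond I)} {r r2 : Cond I}
    {s : Node} (hj : j ∈ J) (hJ : IsLowerSet J) (hr2 : r2.Below (Iio j)) (hle : r2 ≤ r)
    (h : GP p J j k K' D r s) : GP p J j k K' D r2 s := by
  obtain ⟨p', h1, h2, h3, h4, ⟨n', h5⟩, E, h6, h7, h8⟩ := h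
  have hT1 : ∀ i < j, ∀ y, (Cond.glue r2 p' (Iio j)).T i y = r2.T i y := by
    intro i hi y
    simp [Cond.glue, hi]
  have hT2 : ∀ i, ¬ i < j → ∀ y, (Cond.glue r2 p' (Iio j)).T i y = p'.T i y := by
    intro i hi y
    simp [Cond.glue, hi]
  have hb : ∀ y ∈ (Cond.glue r2 p' (Iio j)).body, y ∈ p'.body := by
    intro y hy
    have hyr : y ∈ r2.body := mem_body_of_below hr2 fun i hi => by
      rw [← hT1 i hi y]; exact hy i
    intro i
    by_cases hi : i < j
    · rw [h3 i hi y]; exact hle hyr i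
    · rw [← hT2 i hi y]; exact hy i
  refine ⟨Cond.glue r2 p' (Iio j), fun y hy => h1 (hb y hy), ?_, hT1, ?_, ⟨n', ?_⟩, E, h6, h7,
    fun y hy => h8 (hb y hy)⟩
  · intro i hi y
    have hij : ¬ i < j := fun hij => hi (hJ hij.le hj)
    rw [hT2 i hij y]
    exact h2 i hi y
  · intro y hy
    rw [hT2 j (lt_irrefl j) y]
    exact h4 y (hle hy)
  · intro y hy
    rw [hT2 j (lt_irrefl j) y]
    exact h5 y (hle hy)

/-- Suppose the trees `X s`, `s ∈ F`, are good, pass through the node `s` and all their nodes are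
comparable with `s`; then the union is good. -/
theorem good_union {F : Finset Node} (hF : F.Nonempty) {X : Node → Set Node}
    (hg : ∀ s ∈ F, Good (X s)) : Good {σ | ∃ s ∈ F, σ ∈ X s} where
  nil := by
    obtain ⟨s, hs⟩ := hF
    exact ⟨s, hs, (hg s hs).nil⟩
  down := by
    rintro σ a ⟨s, hs, h⟩
    exact ⟨s, hs, (hg s hs).down σ a h⟩
  bdd := by
    rintro σ a ⟨s, hs, h⟩
    exact (hg s hs).bdd σ a h
  ext := by
    rintro σ ⟨s, hs, h⟩
    obtain ⟨a, ha⟩ := (hg s hs).ext σ h
    refine ⟨a, ?_⟩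
    rw [mem_suc] at ha ⊢
    exact ⟨ha.1, s, hs, ha.2⟩
  norm := by
    intro k
    have h1 : ∀ s : Node, ∃ m : ℕ, s ∈ F → ∀ σ ∈ X s, m ≤ σ.length →
        (σ.length + 2) ^ k ≤ (suc (X s) σ).card := by
      intro s
      by_cases hs : s ∈ F
      · obtain ⟨m, hm⟩ := (hg s hs).norm k
        exact ⟨m, fun _ => hm⟩
      · exact ⟨0, fun h => (hs h).elim⟩
    choose m hm using h1
    refine ⟨F.sup m, ?_⟩
    rintro σ ⟨s, hs, h⟩ hl
    refine (hm s hs σ h ((Finset.le_sup hs).trans hl)).trans (Finset.card_le_card ?_)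
    intro a ha
    rw [mem_suc] at ha ⊢
    exact ⟨ha.1, s, hs, ha.2⟩

/-- Amalgamation of good pairs. -/
theorem amalg [WellFoundedLT I] {p : Cond I} {J : Set I} {j : I} {k K' : ℕ} {D : Set (Cond I)}
    {r : Cond I} (hj : j ∈ J) (hJ : IsLowerSet J) (hr : r.Below (Iio j)) (F : Finset Node)
    (hF : F.Nonempty) (l : ℕ) (hl : ∀ s ∈ F, s.length = l)
    (h : ∀ s ∈ F, GP p J j k K' D r s) :
    ∃ p' : Cond I, p' ≤ p ∧ p'.Below J ∧ (∀ i < j, ∀ y, p'.T i y = r.T i y) ∧
    (∀ y ∈ r.body, (∀ s ∈ F, s ∈ p'.T j y) ∧ (∀ σ ∈ p'.T j y, ∃ s ∈ F, σ <+: s ∨ s <+: σ) ∧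
      ∀ σ ∈ p'.T j y, l ≤ σ.length → (σ.length + 2) ^ (k - 1) ≤ (suc (p'.T j y) σ).card) ∧
    (∃ n', ∀ y ∈ r.body, NormGE (p'.T j y) n' K') ∧
    ∃ E : Set (Cond I), E.Finite ∧ E ⊆ D ∧ p'.body ⊆ ⋃ d ∈ E, d.body := by
  classical
  -- choose the witnesses, for nodes outside of `F` take `p`
  have hch : ∀ s : Node, ∃ P : Cond I, ∃ n' : ℕ, ∃ E : Set (Cond I), s ∈ F →
      P ≤ p ∧ P.Below J ∧ (∀ i < j, ∀ y, P.T i y = r.T i y) ∧
      (∀ y ∈ r.body, s ∈ P.T j y ∧ (∀ σ ∈ P.T j y, σ <+: s ∨ s <+: σ) ∧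
        ∀ σ ∈ P.T j y, s <+: σ → (σ.length + 2) ^ (k - 1) ≤ (suc (P.T j y) σ).card) ∧
      (∀ y ∈ r.body, NormGE (P.T j y) n' K') ∧
      E.Finite ∧ E ⊆ D ∧ P.body ⊆ ⋃ d ∈ E, d.body := by
    intro s
    by_cases hs : s ∈ F
    · obtain ⟨P, h1, h2, h3, h4, ⟨n', h5⟩, E, h6, h7, h8⟩ := h s hs
      exact ⟨P, n', E, fun _ => ⟨h1, h2, h3, h4, h5, h6, h7, h8⟩⟩
    · exact ⟨p, 0, ∅, fun hs' => (hs hs').elim⟩
  choose P nn E hP using hch
  let T : I → Pt I → Set Node := fun i y =>
    if i < j then r.T i y else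
    if i = j then {σ | ∃ s ∈ F, σ ∈ (P s).T j y} else
    if pre (y j) l ∈ F then (P (pre (y j) l)).T i y else full
  let S : Set I := {j} ∪ (r.S ∪ ⋃ s ∈ F, (P s).S)
  have hT1 : ∀ i < j, ∀ y, T i y = r.T i y := fun i hi y => by simp only [T]; rw [if_pos hi]
  have hT2 : ∀ y, T j y = {σ | ∃ s ∈ F, σ ∈ (P s).T j y} := fun y => by
    simp only [T, lt_irrefl, if_false, if_true]
  have hT3 : ∀ i, j < i → ∀ y, T i y =
      if pre (y j) l ∈ F then (P (pre (y j) l)).T i y else full := fun i hi y => by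
    simp only [T]; rw [if_neg hi.le.not_gt, if_neg hi.ne']
  have hS : S.Countable := by
    refine (countable_singleton j).union (r.scount.union ?_)
    exact F.countable_toSet.biUnion fun s _ => (P s).scount
  have hSr : r.S ⊆ S := fun i hi => Or.inr (Or.inl hi)
  have hSP : ∀ s ∈ F, (P s).S ⊆ S := fun s hs i hi => Or.inr (Or.inr (mem_biUnion hs hi))
  have hSj : j ∈ S := Or.inl rfl
  obtain ⟨q, hqS, hq1, hq2⟩ := Cond.exists_of_raw T S hS (by
      intro i hi y
      rcases lt_trichotomy i j with h1 | h1 | h1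
      · rw [hT1 i h1, r.full' i (fun h2 => hi (hSr h2))]
      · subst h1; exact (hi hSj).elim
      · rw [hT3 i h1]
        split_ifs with h2
        · exact (P _).full' i (fun h3 => hi (hSP _ h2 h3)) y
        · rfl) (by
      intro i y y' hyy
      rcases lt_trichotomy i j with h1 | h1 | h1
      · rw [hT1 i h1, hT1 i h1, r.dep i y y' (fun l' hl' => hyy l' (hSr hl'))]
      · subst h1
        rw [hT2, hT2]
        ext σ
        constructor
        · rintro ⟨s, hs, h⟩
          exact ⟨s, hs, by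
            rwa [← (P s).dep i y y' (fun l' hl' => hyy l' (hSP s hs hl'))]⟩
        · rintro ⟨s, hs, h⟩
          exact ⟨s, hs, by
            rwa [(P s).dep i y y' (fun l' hl' => hyy l' (hSP s hs hl'))]⟩
      · rw [hT3 i h1, hT3 i h1, hyy j hSj h1]
        split_ifs with h2
        · exact (P _).dep i y y' (fun l' hl' => hyy l' (hSP _ h2 hl'))
        · rfl) (by
      intro i
      rcases lt_trichotomy i j with h1 | h1 | h1
      · have : T i = r.T i := funext (hT1 i h1)
        rw [this]; exact r.meas i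
      · subst h1
        have : T i = fun y => {σ | ∃ s ∈ F, σ ∈ (P s).T i y} := funext hT2
        rw [this]
        refine measurable_setNode fun σ => ?_
        have : {y : Pt I | σ ∈ {σ | ∃ s ∈ F, σ ∈ (P s).T i y}} =
            ⋃ s ∈ F, {y | σ ∈ (P s).T i y} := by
          ext y; simp
        rw [this]
        exact F.measurableSet_biUnion fun s _ => measurableSet_mem_of ((P s).meas i) σ
      · have h2 : T i = fun y => (fun (σ : Node) (y : Pt I) =>
            if σ ∈ F then (P σ).T i y else full) (pre (y j) l) y := funext (hT3 i h1)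
        rw [h2]
        have h3 : ∀ σ : Node, MeasurableSet {y : Pt I | pre (y j) l = σ} := fun σ =>
          (measurable_pi_apply j : Measurable fun y : Pt I => y j) (measurableSet_pre_eq l σ)
        have h4 : ∀ σ : Node, Measurable (fun y : Pt I =>
            if σ ∈ F then (P σ).T i y else full) := by
          intro σ
          by_cases hσ : σ ∈ F
          · simpa [hσ] using (P σ).meas i
          · simp [hσ]
        exact meas_piece (fun y : Pt I => pre (y j) l) h3
          (fun (σ : Node) (y : Pt I) => if σ ∈ F then (P σ).T i y else full) h4)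
  have hq3 : ∀ i < j, ∀ y, q.T i y = r.T i y := by
    intro i hi y
    rw [hq1 i y (by rw [hT1 i hi]; exact r.good i y), hT1 i hi]
  have hq4 : ∀ i, j < i → ∀ y, q.T i y =
      if pre (y j) l ∈ F then (P (pre (y j) l)).T i y else full := by
    intro i hi y
    have : Good (T i y) := by
      rw [hT3 i hi]
      split_ifs
      · exact (P _).good i y
      · exact good_full
    rw [hq1 i y this, hT3 i hi]
  have hq5 : ∀ y, q.T j y = {σ | ∃ s ∈ F, σ ∈ (P s).T j y} := by
    intro y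
    have : Good (T j y) := by
      rw [hT2]
      exact good_union hF fun s _ => (P s).good j y
    rw [hq1 j y this, hT2]
  -- points of `q`
  have hqr : ∀ y ∈ q.body, y ∈ r.body := fun y hy => mem_body_of_below hr fun i hi => by
    rw [← hq3 i hi y]; exact hy i
  have hkey : ∀ y ∈ q.body, ∃ s ∈ F, y ∈ (P s).body := by
    intro y hy
    have hyr := hqr y hy
    have h1 : pre (y j) l ∈ q.T j y := hy j l
    rw [hq5] at h1
    obtain ⟨s, hs, h2⟩ := h1
    have h3 := ((hP s hs).2.2.2.1 y hyr).2.1 _ h2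
    have h4 : pre (y j) l = s := by
      have h5 : (pre (y j) l).length = s.length := by rw [length_pre, hl s hs]
      rcases h3 with h3 | h3
      · exact h3.eq_of_length h5
      · exact (h3.eq_of_length h5.symm).symm
    refine ⟨s, hs, fun i => ?_⟩
    rcases lt_trichotomy i j with h5 | h5 | h5
    · rw [(hP s hs).2.2.1 i h5 y]; exact hyr i
    · subst h5
      intro m
      have h6 : pre (y i) (max m l) ∈ q.T i y := hy i _
      rw [hq5] at h6
      obtain ⟨s', hs', h7⟩ := h6
      have h8 : s' = s := by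
        have h9 := ((hP s' hs').2.2.2.1 y hyr).2.1 _ h7
        have h10 : s' <+: pre (y i) (max m l) := by
          rcases h9 with h9 | h9
          · have : pre (y i) (max m l) = s' := h9.eq_of_length_le (by
              rw [length_pre, hl s' hs']; exact le_max_right _ _)
            rw [this]
          · exact h9
        have h11 : s <+: pre (y i) (max m l) := by
          rw [← h4]; exact pre_isPrefix _ (le_max_right _ _)
        have h12 := List.prefix_of_prefix_length_le h10 h11 (by rw [hl s' hs', hl s hs])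
        exact h12.eq_of_length (by rw [hl s' hs', hl s hs])
      subst h8
      exact ((P s').good i y).mem_of_isPrefix (pre_isPrefix _ (le_max_left _ _)) h7
    · have h6 := hy i
      rw [hq4 i h5 y, if_pos (by rw [h4]; exact hs), h4] at h6
      exact h6
  refine ⟨q, ?_, ?_, hq3, ?_, ⟨F.sup nn, ?_⟩, ⋃ s ∈ F, E s, ?_, ?_, ?_⟩
  · intro y hy
    obtain ⟨s, hs, h1⟩ := hkey y hy
    exact (hP s hs).1 h1
  · intro i hi y
    have hij : j < i := by
      by_contra hh
      exact hi (hJ (not_lt.1 hh) hj)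
    rw [hq4 i hij y]
    split_ifs with h1
    · exact (hP _ h1).2.1 i hi y
    · rfl
  · intro y hy
    rw [hq5 y]
    refine ⟨fun s hs => ⟨s, hs, ((hP s hs).2.2.2.1 y hy).1⟩, ?_, ?_⟩
    · rintro σ ⟨s, hs, h1⟩
      exact ⟨s, hs, ((hP s hs).2.2.2.1 y hy).2.1 σ h1⟩
    · rintro σ ⟨s, hs, h1⟩ h2
      have h3 := ((hP s hs).2.2.2.1 y hy).2.1 σ h1
      have h4 : s <+: σ := by
        rcases h3 with h3 | h3
        · have : σ = s := h3.eq_of_length_le (by rw [hl s hs]; exact h2)
          rw [this]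
        · exact h3
      refine (((hP s hs).2.2.2.1 y hy).2.2 σ h1 h4).trans (Finset.card_le_card ?_)
      intro a ha
      rw [mem_suc] at ha ⊢
      exact ⟨ha.1, s, hs, ha.2⟩
  · intro y hy σ hσ hlen
    rw [hq5 y] at hσ ⊢
    obtain ⟨s, hs, h1⟩ := hσ
    refine ((hP s hs).2.2.2.2.1 y hy σ h1 ((Finset.le_sup hs).trans hlen)).trans
      (Finset.card_le_card ?_)
    intro a ha
    rw [mem_suc] at ha ⊢
    exact ⟨ha.1, s, hs, ha.2⟩
  · exact Set.Finite.biUnion F.finite_toSet fun s hs => (hP s hs).2.2.2.2.2.1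
  · intro d hd
    simp only [mem_iUnion] at hd
    obtain ⟨s, hs, h1⟩ := hd
    exact (hP s hs).2.2.2.2.2.2.1 h1
  · intro y hy
    obtain ⟨s, hs, h1⟩ := hkey y hy
    have h2 := (hP s hs).2.2.2.2.2.2.2 h1
    simp only [mem_iUnion] at h2 ⊢
    obtain ⟨d, hd, h3⟩ := h2
    exact ⟨d, ⟨s, hs, hd⟩, h3⟩

end Pool.Agent.FL.H9
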