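import Pool.Agent.Helper9_FL.KL1

/-!
# The bad nodes argument, part 2: the main claim (module F3 KL)
-/

open MeasureTheory Set

namespace Pool.Agent.FL.H9

variable {I : Type} [LinearOrder I]

/-- hereditarily bad pairs -/
def HB (p : Cond I) (J : Set I) (j : I) (k K' : ℕ) (D : Set (Cond I)) (r : Cond I) (s : Node) :
    Prop := ∀ r' ≤ r, r'.Below (Iio j) → ¬ GP p J j k K' D r' s

theorem HB.mono {p : Cond I} {J : Set I} {j : I} {k K' : ℕ} {D : Set (Cond I)} {r r2 : Cond I}
    {s : Node} (hle : r2 ≤ r) (h : HB p J j k K' D r s) : HB p J j k K' D r2 s :=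
  fun r' h1 h2 => h r' (le_trans h1 hle) h2

theorem thin_cover [WellFoundedLT I] (hC : ConstStmt) {j : I} {q : Cond I} (hq : q.Below (Iio j))
    (F : Set (Cond I)) (hF : F.Countable) (hb : ∀ d ∈ F, d.Below (Iio j))
    (h : q.body ⊆ ⋃ d ∈ F, d.body) :
    ∃ q' ≤ q, q'.Below (Iio j) ∧ ∃ d ∈ F, q' ≤ d := by
  obtain ⟨y, hy⟩ := q.body_nonempty
  have h1 := h hy
  simp only [mem_iUnion] at h1
  obtain ⟨d0, hd0, -⟩ := h1
  obtain ⟨e, he⟩ := hF.exists_eq_range ⟨d0, hd0⟩
  obtain ⟨q', h2, h3, n, h4⟩ := (hC I (Iio j) (isLowerSet_Iio' j) q hq).2.1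
    (fun n => (e n).body) (fun n => (e n).measurableSet_body)
    (fun n => depOn_body (hb _ (by rw [he]; exact ⟨n, rfl⟩))) (by
      intro y hy
      have h1 := h hy
      simp only [mem_iUnion] at h1 ⊢
      obtain ⟨d, hd, h2⟩ := h1
      rw [he] at hd
      obtain ⟨n, rfl⟩ := hd
      exact ⟨n, h2⟩)
  exact ⟨q', h2, h3, e n, by rw [he]; exact ⟨n, rfl⟩, h4⟩

/-- Thinning so that a function with countably many values becomes constant. -/
theorem thin_const [WellFoundedLT I] (hC : ConstStmt) {j : I} {q : Cond I} (hq : q.Below (Iio j))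
    {β : Type} [Denumerable β] (f : Pt I → β) (hf : ∀ b, MeasurableSet {y | f y = b})
    (hd : ∀ y y' : Pt I, (∀ i < j, y i = y' i) → f y = f y') :
    ∃ q' ≤ q, q'.Below (Iio j) ∧ ∃ b, ∀ y ∈ q'.body, f y = b := by
  obtain ⟨q', h2, h3, n, h4⟩ := (hC I (Iio j) (isLowerSet_Iio' j) q hq).2.1
    (fun n => {y | f y = Denumerable.ofNat β n}) (fun n => hf _)
    (fun n y y' h => by
      show f y = _ ↔ f y' = _
      rw [hd y y' h]) (by
      intro y hy
      simp only [mem_iUnion]
      exact ⟨Encodable.encode (f y), by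
        show f y = _
        rw [Denumerable.ofNat_encode]⟩)
  exact ⟨q', h2, h3, _, fun y hy => h4 hy⟩

section claim

variable [WellFoundedLT I] {p : Cond I} {J : Set I} {j : I} {n k K' : ℕ} {D : Set (Cond I)}

/-- The set of points where the node `t` is hereditarily bad. -/
def Hset (p : Cond I) (J : Set I) (j : I) (k K' : ℕ) (D : Set (Cond I))
    (A : Node → Set (Cond I)) (t : Node) : Set (Pt I) :=
  ⋃ d ∈ {d | d ∈ A t ∧ HB p J j k K' D d t}, d.body

/-- The thinned tree. -/
def Tb (p : Cond I) (j : I) (s : Node) (H : Node → Set (Pt I)) (y : Pt I) : Set Node :=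
  {t | t ∈ p.T j y ∧ (t <+: s ∨ (s <+: t ∧ ∀ t', s <+: t' → t' <+: t → y ∈ H t'))}

/-- The nodes which are not hereditarily bad. -/
def Nb (p : Cond I) (j : I) (H : Node → Set (Pt I)) (y : Pt I) : Set Node :=
  {t | t ∈ p.T j y ∧ y ∉ H t}

omit [WellFoundedLT I] in
theorem measurable_Tb (s : Node) {H : Node → Set (Pt I)} (hH : ∀ t, MeasurableSet (H t)) :
    Measurable (Tb p j s H) := by
  refine measurable_setNode fun σ => ?_
  have h1 : {y | σ ∈ Tb p j s H y} = {y | σ ∈ p.T j y} ∩
      ({_y | σ <+: s} ∪ ({_y | s <+: σ} ∩ ⋂ t', {y | s <+: t' → t' <+: σ → y ∈ H t'})) := by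
    ext y
    simp only [Tb, mem_ofPred_eq, mem_inter_iff, mem_union, mem_iInter]
  rw [h1]
  refine (measurableSet_mem_of (p.meas j) σ).inter ((MeasurableSet.const _).union
    ((MeasurableSet.const _).inter (MeasurableSet.iInter fun t' => ?_)))
  by_cases h2 : s <+: t'
  · by_cases h3 : t' <+: σ
    · simpa [h2, h3] using hH t'
    · simp [h3]
  · simp [h2]

omit [WellFoundedLT I] in
theorem measurable_Nb {H : Node → Set (Pt I)} (hH : ∀ t, MeasurableSet (H t)) :
    Measurable (Nb p j H) := by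
  refine measurable_setNode fun σ => ?_
  exact (measurableSet_mem_of (p.meas j) σ).inter (hH σ).compl

omit [WellFoundedLT I] in
theorem Tb_congr (s : Node) {H : Node → Set (Pt I)}
    (hH : ∀ t, ∀ y y' : Pt I, (∀ i < j, y i = y' i) → y ∈ H t → y' ∈ H t) {y y' : Pt I}
    (h : ∀ i < j, y i = y' i) : Tb p j s H y = Tb p j s H y' := by
  have h1 : p.T j y = p.T j y' := p.T_congr h
  have h2 : ∀ t, y ∈ H t ↔ y' ∈ H t := fun t =>
    ⟨hH t y y' h, hH t y' y fun i hi => (h i hi).symm⟩
  simp only [Tb, h1, h2]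

omit [WellFoundedLT I] in
theorem Nb_congr {H : Node → Set (Pt I)}
    (hH : ∀ t, ∀ y y' : Pt I, (∀ i < j, y i = y' i) → y ∈ H t → y' ∈ H t) {y y' : Pt I}
    (h : ∀ i < j, y i = y' i) : Nb p j H y = Nb p j H y' := by
  have h1 : p.T j y = p.T j y' := p.T_congr h
  have h2 : ∀ t, y ∈ H t ↔ y' ∈ H t := fun t =>
    ⟨hH t y y' h, hH t y' y fun i hi => (h i hi).symm⟩
  simp only [Nb, h1, h2]

omit [WellFoundedLT I] in
/-- The thinned tree is good if there are few not hereditarily bad successors. -/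
theorem good_Tb {s : Node} {H : Node → Set (Pt I)} {y : Pt I} (hk : 1 ≤ k)
    (hs : n ≤ s.length) (hsT : s ∈ p.T j y) (hn : NormGE (p.T j y) n k) (hHs : y ∈ H s)
    (hY : ∀ t, s <+: t → t ∈ Tb p j s H y →
      (suc (Nb p j H y) t).card < (t.length + 2) ^ (k - 1)) : Good (Tb p j s H y) := by
  have hg := p.good j y
  have hsub : Tb p j s H y ⊆ p.T j y := fun t ht => ht.1
  have hcard : ∀ t ∈ Tb p j s H y, s <+: t →
      (suc (p.T j y) t).card ≤ 2 * (suc (Tb p j s H y) t).card := by
    intro t ht hst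
    have h1 : suc (p.T j y) t ⊆ suc (Tb p j s H y) t ∪ suc (Nb p j H y) t := by
      intro a ha
      rw [mem_suc] at ha
      rw [Finset.mem_union, mem_suc, mem_suc]
      by_cases hH : y ∈ H (t ++ [a])
      · left
        refine ⟨ha.1, ha.2, Or.inr ⟨hst.trans (List.prefix_append _ _), ?_⟩⟩
        intro t' h2 h3
        rcases List.prefix_concat_iff.1 h3 with h4 | h4
        · rw [h4]; exact hH
        · rcases ht.2 with h5 | ⟨_, h5⟩
          · have : t' = s := by
              have h6 : t' <+: s := h4.trans h5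
              exact h6.eq_of_length_le h2.length_le
            rw [this]; exact hHs
          · exact h5 t' h2 h4
      · right
        exact ⟨ha.1, ha.2, hH⟩
    have h2 := (Finset.card_le_card h1).trans (Finset.card_union_le _ _)
    have h3 := hY t hst ht
    have h4 := hn t ht.1 (hs.trans hst.length_le)
    have h5 : (t.length + 2) ^ k = (t.length + 2) ^ (k - 1) * (t.length + 2) := by
      rw [← pow_succ]; congr 1; omega
    have h6 : 2 * (t.length + 2) ^ (k - 1) ≤ (t.length + 2) ^ k := by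
      rw [h5, mul_comm]; exact Nat.mul_le_mul_left _ (by omega)
    omega
  refine ⟨⟨hg.nil, Or.inl (List.nil_prefix)⟩, ?_, fun σ a h => hg.bdd σ a h.1, ?_, ?_⟩
  · rintro σ a ⟨h1, h2⟩
    refine ⟨hg.down σ a h1, ?_⟩
    rcases h2 with h2 | ⟨h2, h3⟩
    · exact Or.inl ((List.prefix_append _ _).trans h2)
    · rcases List.prefix_concat_iff.1 h2 with h4 | h4
      · left; rw [h4]; exact List.prefix_append _ _
      · right
        exact ⟨h4, fun t' h5 h6 => h3 t' h5 (h6.trans (List.prefix_append _ _))⟩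
  · intro σ hσ
    by_cases h1 : s <+: σ
    · have h2 := hcard σ hσ h1
      have h3 := Finset.card_pos.2 (hg.ext σ hσ.1)
      exact Finset.card_pos.1 (by omega)
    · have h2 : σ <+: s := by
        rcases hσ.2 with h2 | h2
        · exact h2
        · exact (h1 h2.1).elim
      obtain ⟨l, hl⟩ := h2
      cases l with
      | nil =>
        exfalso; apply h1
        rw [List.append_nil] at hl
        rw [hl]
      | cons a l =>
        have h3 : σ ++ [a] <+: s := ⟨l, by rw [← hl]; simp⟩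
        have h4 : σ ++ [a] ∈ p.T j y := hg.mem_of_isPrefix h3 hsT
        refine ⟨a, ?_⟩
        rw [mem_suc]
        exact ⟨hg.bdd σ a h4, h4, Or.inl h3⟩
  · intro k0
    obtain ⟨m, hm⟩ := hg.norm (k0 + 1)
    refine ⟨max m (s.length + 1), fun σ hσ hl => ?_⟩
    have h1 : s <+: σ := by
      rcases hσ.2 with h2 | h2
      · have := h2.length_le
        have := le_trans (le_max_right _ _) hl
        omega
      · exact h2.1
    have h2 := hcard σ hσ h1
    have h3 := hm σ hσ.1 (le_trans (le_max_left _ _) hl)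
    have h4 : 2 * (σ.length + 2) ^ k0 ≤ (σ.length + 2) ^ (k0 + 1) := by
      rw [pow_succ, mul_comm]; exact Nat.mul_le_mul_left _ (by omega)
    omega

/-- A pair is good if sufficiently many of its successors are good. -/
theorem GP.of_succ (hj : j ∈ J) (hJ : IsLowerSet J) {r : Cond I} (hr : r.Below (Iio j))
    {t : Node} {B : Finset ℕ} (hB : (t.length + 2) ^ (k - 1) ≤ B.card)
    (hsz : ∀ a ∈ B, a < sz t.length)
    (h : ∀ a ∈ B, GP p J j k K' D r (t ++ [a])) : GP p J j k K' D r t := by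
  classical
  have hBne : B.Nonempty := Finset.card_pos.1 (lt_of_lt_of_le (by positivity) hB)
  obtain ⟨p', h1, h2, h3, h4, h5, h6⟩ := amalg (p := p) (J := J) (k := k) (K' := K') (D := D)
    hj hJ hr (B.image fun a => t ++ [a]) (hBne.image _) (t.length + 1) (by
      intro s hs
      obtain ⟨a, -, rfl⟩ := Finset.mem_image.1 hs
      simp) (by
      intro s hs
      obtain ⟨a, ha, rfl⟩ := Finset.mem_image.1 hs
      exact h a ha)
  refine ⟨p', h1, h2, h3, fun y hy => ?_, h5, h6⟩
  obtain ⟨g1, g2, g3⟩ := h4 y hy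
  have hB2 : ∀ a ∈ B, t ++ [a] ∈ p'.T j y := fun a ha => g1 _ (Finset.mem_image_of_mem _ ha)
  refine ⟨?_, ?_, ?_⟩
  · obtain ⟨a, ha⟩ := hBne
    exact (p'.good j y).down _ _ (hB2 a ha)
  · intro σ hσ
    obtain ⟨s, hs, h7⟩ := g2 σ hσ
    obtain ⟨a, ha, rfl⟩ := Finset.mem_image.1 hs
    rcases h7 with h7 | h7
    · rcases List.prefix_concat_iff.1 h7 with h8 | h8
      · right; rw [h8]; exact List.prefix_append _ _
      · exact Or.inl h8
    · exact Or.inr ((List.prefix_append _ _).trans h7)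
  · intro σ hσ h7
    rcases eq_or_lt_of_le h7.length_le with h8 | h8
    · have h9 : t = σ := h7.eq_of_length h8
      subst h9
      refine hB.trans (Finset.card_le_card fun a ha => ?_)
      rw [mem_suc]
      exact ⟨hsz a ha, hB2 a ha⟩
    · exact g3 σ hσ h8

end claim

end Pool.Agent.FL.H9
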