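import Pool.Agent.Helper9_FL.KL2

/-!
# The bad nodes argument, part 3: the main claim (module F3 KL)
-/

open MeasureTheory Set

namespace Pool.Agent.FL.H9

/-! ### The part of a tree compatible with a node -/

theorem suc_sub {T : Set Node} {t σ : Node} (h : t <+: σ) : suc (sub T t) σ = suc T σ := by
  ext a
  rw [mem_suc, mem_suc]
  constructor
  · rintro ⟨h1, h2, -⟩
    exact ⟨h1, h2⟩
  · rintro ⟨h1, h2⟩
    exact ⟨h1, h2, Or.inr (h.trans (List.prefix_append _ _))⟩

theorem prefix_of_mem_sub {T : Set Node} {t σ : Node} (h : σ ∈ sub T t)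
    (hl : t.length ≤ σ.length) : t <+: σ := by
  rcases h.2 with h1 | h1
  · rw [h1.eq_of_length_le hl]
  · exact h1

theorem good_sub {T : Set Node} (hT : Good T) {t : Node} (ht : t ∈ T) : Good (sub T t) where
  nil := ⟨hT.nil, Or.inl List.nil_prefix⟩
  down := by
    rintro σ a ⟨h1, h2⟩
    refine ⟨hT.down _ _ h1, ?_⟩
    rcases h2 with h2 | h2
    · exact Or.inl ((List.prefix_append _ _).trans h2)
    · rcases List.prefix_concat_iff.1 h2 with h4 | h4
      · left; rw [h4]; exact List.prefix_append _ _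
      · right; exact h4
  bdd := fun σ a h => hT.bdd σ a h.1
  ext := by
    intro σ hσ
    by_cases h1 : t <+: σ
    · rw [suc_sub h1]; exact hT.ext σ hσ.1
    · have h2 : σ <+: t := by
        rcases hσ.2 with h2 | h2
        · exact h2
        · exact (h1 h2).elim
      obtain ⟨l, hl⟩ := h2
      cases l with
      | nil =>
        exfalso; apply h1
        rw [List.append_nil] at hl
        rw [hl]
      | cons a l =>
        have h3 : σ ++ [a] <+: t := ⟨l, by rw [← hl]; simp⟩
        have h4 : σ ++ [a] ∈ T := hT.mem_of_isPrefix h3 ht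
        refine ⟨a, ?_⟩
        rw [mem_suc]
        exact ⟨hT.bdd σ a h4, h4, Or.inl h3⟩
  norm := by
    intro k
    obtain ⟨m, hm⟩ := hT.norm k
    refine ⟨max m t.length, fun σ hσ hl => ?_⟩
    rw [suc_sub (prefix_of_mem_sub hσ (le_trans (le_max_right _ _) hl))]
    exact hm σ hσ.1 (le_trans (le_max_left _ _) hl)

theorem measurable_sub {Ω : Type*} [MeasurableSpace Ω] {T : Ω → Set Node} (hT : Measurable T)
    (t : Node) : Measurable (fun ω => sub (T ω) t) := by
  refine measurable_setNode fun σ => ?_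
  have : {ω | σ ∈ sub (T ω) t} = {ω | σ ∈ T ω} ∩ {_ω | σ <+: t ∨ t <+: σ} := by
    ext ω
    exact Iff.rfl
  rw [this]
  exact (measurableSet_mem_of hT σ).inter (MeasurableSet.const _)

variable {I : Type} [LinearOrder I]

theorem body_congr_S {d : Cond I} {j : I} (hd : d.Below (Iio j)) {y y' : Pt I}
    (h : ∀ i ∈ d.S, i < j → y i = y' i) (hy : y ∈ d.body) : y' ∈ d.body := by
  refine mem_body_of_below hd fun i hi => ?_
  have hi' : i < j := hi
  by_cases hS : i ∈ d.S
  · rw [← h i hS hi', d.dep i y' y fun l hl hli => (h l hl (hli.trans hi')).symm]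
    exact hy i
  · rw [d.full' i hS, body_full]; trivial

section claim

variable [WellFoundedLT I] {p : Cond I} {J : Set I} {j : I} {n k K' : ℕ} {D : Set (Cond I)}

omit [WellFoundedLT I] in
/-- A three part condition: `r` below `j`, the trees `X` at `j`, and `q` above `j`. -/
theorem three_part {r q : Cond I} (hr : r.Below (Iio j)) (X : Pt I → Set Node)
    (hX : Measurable X) (S0 : Set I) (hS0 : S0.Countable)
    (hdep : ∀ y y' : Pt I, (∀ l ∈ S0, l < j → y l = y' l) → X y = X y')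
    (hgood : ∀ y ∈ r.body, Good (X y)) :
    ∃ w : Cond I, (∀ i < j, ∀ y, w.T i y = r.T i y) ∧ (∀ y ∈ r.body, w.T j y = X y) ∧
      (∀ i, j < i → ∀ y, w.T i y = q.T i y) ∧ (∀ y ∈ w.body, y ∈ r.body) := by
  classical
  let T : I → Pt I → Set Node := fun i y =>
    if i < j then r.T i y else if i = j then X y else q.T i y
  let S : Set I := {j} ∪ (r.S ∪ (q.S ∪ S0))
  have hT1 : ∀ i < j, ∀ y, T i y = r.T i y := fun i hi y => by simp only [T]; rw [if_pos hi]
  have hT2 : ∀ y, T j y = X y := fun y => by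
    simp only [T, lt_irrefl, if_false, if_true]
  have hT3 : ∀ i, j < i → ∀ y, T i y = q.T i y := fun i hi y => by
    simp only [T]; rw [if_neg hi.le.not_gt, if_neg hi.ne']
  obtain ⟨w, hwS, hw1, hw2⟩ := Cond.exists_of_raw T S
    ((countable_singleton j).union (r.scount.union (q.scount.union hS0))) (by
      intro i hi y
      rcases lt_trichotomy i j with h1 | h1 | h1
      · rw [hT1 i h1, r.full' i (fun h2 => hi (Or.inr (Or.inl h2)))]
      · subst h1; exact (hi (Or.inl rfl)).elim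
      · rw [hT3 i h1, q.full' i (fun h2 => hi (Or.inr (Or.inr (Or.inl h2))))]) (by
      intro i y y' hyy
      rcases lt_trichotomy i j with h1 | h1 | h1
      · rw [hT1 i h1, hT1 i h1, r.dep i y y' (fun l' hl' => hyy l' (Or.inr (Or.inl hl')))]
      · subst h1
        rw [hT2, hT2]
        exact hdep y y' fun l hl => hyy l (Or.inr (Or.inr (Or.inr hl)))
      · rw [hT3 i h1, hT3 i h1,
          q.dep i y y' (fun l' hl' => hyy l' (Or.inr (Or.inr (Or.inl hl'))))]) (by
      intro i
      rcases lt_trichotomy i j with h1 | h1 | h1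
      · have : T i = r.T i := funext (hT1 i h1)
        rw [this]; exact r.meas i
      · subst h1
        have : T i = X := funext hT2
        rw [this]; exact hX
      · have : T i = q.T i := funext (hT3 i h1)
        rw [this]; exact q.meas i)
  have h1 : ∀ i < j, ∀ y, w.T i y = r.T i y := by
    intro i hi y
    rw [hw1 i y (by rw [hT1 i hi]; exact r.good i y), hT1 i hi]
  refine ⟨w, h1, ?_, ?_, ?_⟩
  · intro y hy
    rw [hw1 j y (by rw [hT2]; exact hgood y hy), hT2]
  · intro i hi y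
    rw [hw1 i y (by rw [hT3 i hi]; exact q.good i y), hT3 i hi]
  · intro y hy
    exact mem_body_of_below hr fun i hi => by rw [← h1 i hi y]; exact hy i

theorem main_claim (hC : ConstStmt) (hj : j ∈ J) (hJ : IsLowerSet J) (hBR : BRw I (Iio j))
    (hpB : p.Below J) (hk : 1 ≤ k) (hn : ∀ y ∈ p.body, NormGE (p.T j y) n k)
    (hD1 : ∀ d ∈ D, d ≤ p ∧ d.Below J) (hD3 : ∀ q ≤ p, q.Below J → ∃ d ∈ D, d ≤ q)
    {r : Cond I} (hr : r ≤ p.restr (Iio j)) (hrB : r.Below (Iio j)) {s : Node}
    (hs : n ≤ s.length) (hsT : ∀ y ∈ r.body, s ∈ p.T j y) :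
    ∃ r' ≤ r, r'.Below (Iio j) ∧ GP p J j k K' D r' s := by
  classical
  by_contra hcon
  have hHB : HB p J j k K' D r s := fun r' h1 h2 h3 => hcon ⟨r', h1, h2, h3⟩
  have hls := isLowerSet_Iio' j
  -- the dense sets
  let Ed : Node → Set (Cond I) := fun t => {d | d ≤ r ∧ d.Below (Iio j) ∧
    ((∀ y ∈ d.body, t ∉ p.T j y) ∨
      ((∀ y ∈ d.body, t ∈ p.T j y) ∧ (GP p J j k K' D d t ∨ HB p J j k K' D d t)))}
  obtain ⟨r1, hr1, hr1B, hr1E⟩ := hBR r hrB (fun i => Ed (Denumerable.ofNat Node i))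
    (fun i d hd => ⟨hd.1, hd.2.1⟩) (by
      rintro i d ⟨h1, h2, h3⟩ e he heB
      refine ⟨le_trans he h1, heB, ?_⟩
      rcases h3 with h3 | ⟨h3, h4⟩
      · exact Or.inl fun y hy => h3 y (he hy)
      · refine Or.inr ⟨fun y hy => h3 y (he hy), ?_⟩
        rcases h4 with h4 | h4
        · exact Or.inl (h4.mono hj hJ heB he)
        · exact Or.inr (h4.mono he)) (by
      intro i q hq hqB
      set t := Denumerable.ofNat Node i
      obtain ⟨q1, h1, h2, h3⟩ := (hC I (Iio j) hls q hqB).1 {y | t ∈ p.T j y}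
        (measurableSet_mem_of (p.meas j) t) (fun y y' h => by
          show t ∈ p.T j y ↔ t ∈ p.T j y'
          rw [p.T_congr (y := y) (y' := y') (fun l hl => h l hl)])
      rcases h3 with h3 | h3
      · by_cases h4 : ∃ q2 ≤ q1, q2.Below (Iio j) ∧ GP p J j k K' D q2 t
        · obtain ⟨q2, h5, h6, h7⟩ := h4
          exact ⟨q2, ⟨le_trans h5 (le_trans h1 hq), h6, Or.inr ⟨fun y hy => h3 (h5 hy),
            Or.inl h7⟩⟩, le_trans h5 h1⟩
        · exact ⟨q1, ⟨le_trans h1 hq, h2, Or.inr ⟨fun y hy => h3 hy,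
            Or.inr fun r' h5 h6 h7 => h4 ⟨r', h5, h6, h7⟩⟩⟩, h1⟩
      · exact ⟨q1, ⟨le_trans h1 hq, h2, Or.inl fun y hy => h3 hy⟩, h1⟩)
  have hA : ∀ t : Node, ∃ A : Set (Cond I), A.Finite ∧ A ⊆ Ed t ∧ r1.body ⊆ ⋃ d ∈ A, d.body := by
    intro t
    have := hr1E (Encodable.encode t)
    rwa [Denumerable.ofNat_encode] at this
  choose A hAf hAE hAc using hA
  set H : Node → Set (Pt I) := Hset p J j k K' D A with hHdef
  have hHmem : ∀ t y, y ∈ H t ↔ ∃ d ∈ A t, HB p J j k K' D d t ∧ y ∈ d.body := by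
    intro t y
    simp only [hHdef, Hset, mem_iUnion, mem_ofPred_eq, exists_prop]
    constructor
    · rintro ⟨d, ⟨h1, h2⟩, h3⟩; exact ⟨d, h1, h2, h3⟩
    · rintro ⟨d, h1, h2, h3⟩; exact ⟨d, ⟨h1, h2⟩, h3⟩
  have hHm : ∀ t, MeasurableSet (H t) := by
    intro t
    refine Set.Finite.measurableSet_biUnion ((hAf t).subset fun d hd => hd.1) ?_
    intro d _
    exact d.measurableSet_body
  have hHdepS : ∀ t, ∀ y y' : Pt I, (∀ l ∈ (⋃ t : Node, ⋃ d ∈ A t, d.S), l < j → y l = y' l) →
      y ∈ H t → y' ∈ H t := by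
    intro t y y' h hy
    rw [hHmem] at hy ⊢
    obtain ⟨d, h1, h2, h3⟩ := hy
    refine ⟨d, h1, h2, body_congr_S (hAE t h1).2.1 (fun i hi hij => h i ?_ hij) h3⟩
    exact mem_iUnion.2 ⟨t, mem_biUnion h1 hi⟩
  have hHdep : ∀ t, ∀ y y' : Pt I, (∀ i < j, y i = y' i) → y ∈ H t → y' ∈ H t :=
    fun t y y' h => hHdepS t y y' fun l _ hl => h l hl
  -- (1)
  have hone : ∀ y ∈ r1.body, ∀ t ∈ p.T j y, y ∉ H t →
      ∃ d ∈ A t, GP p J j k K' D d t ∧ y ∈ d.body := by
    intro y hy t ht hyH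
    have h1 := hAc t hy
    simp only [mem_iUnion, exists_prop] at h1
    obtain ⟨d, h2, h3⟩ := h1
    rcases (hAE t h2).2.2 with h4 | ⟨-, h4 | h4⟩
    · exact (h4 y h3 ht).elim
    · exact ⟨d, h2, h4, h3⟩
    · exact (hyH ((hHmem t y).2 ⟨d, h2, h4, h3⟩)).elim
  -- (2)
  have htwo : ∀ y ∈ r1.body, y ∈ H s := by
    intro y hy
    by_contra hyH
    obtain ⟨d, h2, h4, h3⟩ := hone y hy s (hsT y (hr1 hy)) hyH
    exact hHB d (hAE s h2).1 (hAE s h2).2.1 h4
  -- on the thinned tree the nodes are bad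
  have hTbH : ∀ y ∈ r1.body, ∀ t ∈ Tb p j s H y, s.length ≤ t.length → s <+: t ∧ y ∈ H t := by
    intro y hy t ht hl
    rcases ht.2 with h1 | ⟨h1, h2⟩
    · have h3 : t = s := h1.eq_of_length_le hl
      subst h3
      exact ⟨List.prefix_rfl, htwo y hy⟩
    · exact ⟨h1, h2 t h1 List.prefix_rfl⟩
  -- the sets `Y t`
  let Y : Node → Set (Pt I) := fun t => {y | s <+: t ∧ t ∈ Tb p j s H y ∧
    (t.length + 2) ^ (k - 1) ≤ (suc (Nb p j H y) t).card}
  have hYm : ∀ t, MeasurableSet (Y t) := by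
    intro t
    have h1 : Y t = {_y | s <+: t} ∩ ({y | t ∈ Tb p j s H y} ∩
      {y | (t.length + 2) ^ (k - 1) ≤ (suc (Nb p j H y) t).card}) := by
      ext y; simp only [Y, mem_ofPred_eq, mem_inter_iff]
    rw [h1]
    refine (MeasurableSet.const _).inter ((measurableSet_mem_of (measurable_Tb s hHm) t).inter ?_)
    exact (measurable_Nb hHm) (measurableSet_card_suc t (fun c => (t.length + 2) ^ (k - 1) ≤ c))
  have hYd : ∀ t, DepOn (Iio j) (Y t) := by
    intro t y y' h
    simp only [Y, mem_ofPred_eq]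
    rw [Tb_congr (p := p) s hHdep (y := y) (y' := y') (fun i hi => h i hi),
      Nb_congr (p := p) hHdep (y := y) (y' := y') (fun i hi => h i hi)]
  have hY : ∀ t, ∀ q ≤ r1, q.Below (Iio j) → ¬ q.body ⊆ Y t := by
    intro t q hq hqB hqY
    obtain ⟨q1, hq1, hq1B, B, hB⟩ := thin_const hC hqB (β := Finset ℕ)
      (fun y => suc (Nb p j H y) t)
      (fun b => (measurable_Nb hHm) (measurableSet_suc_eq t b)) (by
        intro y y' h
        show suc (Nb p j H y) t = suc (Nb p j H y') t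
        rw [Nb_congr (p := p) hHdep h])
    have hstep : ∀ B' : Finset ℕ, B' ⊆ B → ∃ q2 ≤ q1, q2.Below (Iio j) ∧
        ∀ a ∈ B', GP p J j k K' D q2 (t ++ [a]) := by
      intro B'
      induction B' using Finset.induction_on with
      | empty => exact fun _ => ⟨q1, le_refl _, hq1B, fun a ha => by simp at ha⟩
      | insert a B' _ ih =>
        intro hB'
        obtain ⟨q2, h1, h2, h3⟩ := ih ((Finset.subset_insert _ _).trans hB')
        have haB : a ∈ B := hB' (Finset.mem_insert_self _ _)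
        obtain ⟨q3, h4, h5, d, h6, h7⟩ := thin_cover hC h2
          {d | d ∈ A (t ++ [a]) ∧ GP p J j k K' D d (t ++ [a])}
          ((hAf (t ++ [a])).countable.mono fun d hd => hd.1)
          (fun d hd => (hAE _ hd.1).2.1) (by
            intro y hy
            have hyq1 := h1 hy
            have h8 : a ∈ suc (Nb p j H y) t := by rw [hB y hyq1]; exact haB
            rw [mem_suc] at h8
            obtain ⟨d, h9, h10, h11⟩ := hone y (hq (hq1 hyq1)) _ h8.2.1 h8.2.2
            simp only [mem_iUnion, exists_prop]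
            exact ⟨d, ⟨h9, h10⟩, h11⟩)
        refine ⟨q3, le_trans h4 h1, h5, fun b hb => ?_⟩
        rcases Finset.mem_insert.1 hb with rfl | hb
        · exact h6.2.mono hj hJ h5 h7
        · exact (h3 b hb).mono hj hJ h5 h4
    obtain ⟨q2, h1, h2, h3⟩ := hstep B (Finset.Subset.refl _)
    obtain ⟨y0, hy0⟩ := q2.body_nonempty
    have hy0Y := hqY (hq1 (h1 hy0))
    have hBy0 := hB y0 (h1 hy0)
    have hGP : GP p J j k K' D q2 t := by
      refine GP.of_succ hj hJ h2 (B := B) ?_ ?_ h3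
      · rw [← hBy0]; exact hy0Y.2.2
      · intro a ha
        rw [← hBy0, mem_suc] at ha
        exact ha.1
    obtain ⟨q4, h4, h5, d, h6, h7⟩ := thin_cover hC h2
      {d | d ∈ A t ∧ HB p J j k K' D d t}
      ((hAf t).countable.mono fun d hd => hd.1)
      (fun d hd => (hAE _ hd.1).2.1) (by
        intro y hy
        have hyY := hqY (hq1 (h1 hy))
        have h8 := (hTbH y (hq (hq1 (h1 hy))) t hyY.2.1 hyY.1.length_le).2
        rw [hHmem] at h8
        obtain ⟨d, h9, h10, h11⟩ := h8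
        simp only [mem_iUnion, exists_prop]
        exact ⟨d, ⟨h9, h10⟩, h11⟩)
    exact h6.2 q4 h7 h5 (hGP.mono hj hJ h5 h4)
  obtain ⟨r2, hr2, hr2B, hr2Y⟩ := (hC I (Iio j) hls r1 hr1B).2.2
    (fun m => Y (Denumerable.ofNat Node m)) (fun m => hYm _) (fun m => hYd _) (fun m => hY _)
  have hr2Y' : ∀ y ∈ r2.body, ∀ t, y ∉ Y t := by
    intro y hy t hyt
    have := hr2Y (Encodable.encode t) hy
    rw [Denumerable.ofNat_encode] at this
    exact this hyt
  have hgoodTb : ∀ y ∈ r2.body, Good (Tb p j s H y) := by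
    intro y hy
    have hyr1 := hr2 hy
    obtain ⟨y', hy', hagr⟩ := exists_agree hr (hr1 hyr1)
    have hT : p.T j y = p.T j y' := p.T_congr fun i hi => (hagr i hi).symm
    refine good_Tb hk hs (hsT y (hr1 hyr1)) (by rw [hT]; exact hn y' hy') (htwo y hyr1) ?_
    intro t hst ht
    by_contra hlt
    exact hr2Y' y hy t ⟨hst, ht, not_lt.1 hlt⟩
  -- the condition `p''`
  obtain ⟨p2, hp21, hp22, hp23, hp24⟩ := three_part (q := p) hr2B (Tb p j s H)
    (measurable_Tb s hHm) (p.S ∪ ⋃ t : Node, ⋃ d ∈ A t, d.S)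
    (p.scount.union (countable_iUnion fun t => (hAf t).countable.biUnion fun d _ => d.scount))
    (by
      intro y y' h
      have h1 : p.T j y = p.T j y' := p.dep j y y' fun l hl hlj => h l (Or.inl hl) hlj
      have h2 : ∀ t, y ∈ H t ↔ y' ∈ H t := fun t =>
        ⟨hHdepS t y y' fun l hl hlj => h l (Or.inr hl) hlj,
          hHdepS t y' y fun l hl hlj => (h l (Or.inr hl) hlj).symm⟩
      simp only [Tb, h1, h2]) hgoodTb
  have hp2p : p2 ≤ p := by
    intro y hy i
    have hyr2 := hp24 y hy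
    rcases lt_trichotomy i j with h1 | h1 | h1
    · exact mem_restr_body.1 (hr (hr1 (hr2 hyr2))) i h1
    · subst h1
      have h2 := hy i
      rw [hp22 y hyr2] at h2
      exact body_mono (fun t ht => ht.1) h2
    · rw [← hp23 i h1 y]; exact hy i
  have habove : ∀ i, i ∉ J → j < i := fun i hi => by
    by_contra hh
    exact hi (hJ (not_lt.1 hh) hj)
  have hp2B : p2.Below J := by
    intro i hi y
    rw [hp23 i (habove i hi) y]
    exact hpB i hi y
  obtain ⟨d, hdD, hdp2⟩ := hD3 p2 hp2p hp2B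
  have hdB : d.Below J := (hD1 d hdD).2
  -- below `j`
  set e := d.restr (Iio j) with he
  have heB : e.Below (Iio j) := restr_below d j
  have heprop : ∀ y ∈ e.body, y ∈ r2.body ∧ d.T j y ⊆ Tb p j s H y := by
    intro y hy
    obtain ⟨y', hy', hagr⟩ := exists_agree (p := d) (r := e) (le_refl _) hy
    have hy'2 := hp24 y' (hdp2 hy')
    have h1 : y ∈ r2.body := body_congr' hr2B hagr hy'2
    refine ⟨h1, ?_⟩
    have h2 : d.T j y = d.T j y' := d.T_congr fun i hi => (hagr i hi).symm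
    have h3 : Tb p j s H y = Tb p j s H y' :=
      Tb_congr s hHdep fun i hi => (hagr i hi).symm
    rw [h2, h3, ← hp22 y' hy'2]
    exact Cond.T_subset hdp2 hy' j
  obtain ⟨e1, he1, he1B, m, hm⟩ := (hC I (Iio j) hls e heB).2.1
    (fun m => {y | (Denumerable.ofNat (Node × ℕ) m).1 ∈ d.T j y ∧
      s.length ≤ (Denumerable.ofNat (Node × ℕ) m).1.length ∧
      NormGE (d.T j y) (Denumerable.ofNat (Node × ℕ) m).1.length (k - 1) ∧
      NormGE (d.T j y) (Denumerable.ofNat (Node × ℕ) m).2 K'}) (by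
      intro m
      refine MeasurableSet.inter (measurableSet_mem_of (d.meas j) _)
        (MeasurableSet.inter (MeasurableSet.const _) (MeasurableSet.inter ?_ ?_))
      · exact (d.meas j) (measurableSet_normGE _ _)
      · exact (d.meas j) (measurableSet_normGE _ _)) (by
      intro m y y' h
      simp only [mem_ofPred_eq]
      rw [d.T_congr (i := j) (y := y) (y' := y') (fun l hl => h l hl)]) (by
      intro y _
      obtain ⟨m1, hm1⟩ := (d.good j y).norm (k - 1)
      obtain ⟨m2, hm2⟩ := (d.good j y).norm K'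
      obtain ⟨b, hb⟩ := (d.good j y).body_nonempty
      simp only [mem_iUnion]
      refine ⟨Encodable.encode ((pre b (max m1 s.length), m2) : Node × ℕ), ?_⟩
      simp only [mem_ofPred_eq, Denumerable.ofNat_encode, length_pre]
      exact ⟨hb _, le_max_right _ _, fun σ hσ hl => hm1 σ hσ (le_trans (le_max_left _ _) hl),
        fun σ hσ hl => hm2 σ hσ hl⟩)
  set t0 := (Denumerable.ofNat (Node × ℕ) m).1
  set m' := (Denumerable.ofNat (Node × ℕ) m).2
  have ht0 : ∀ y ∈ e1.body, y ∈ H t0 := by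
    intro y hy
    obtain ⟨h1, h2⟩ := heprop y (he1 hy)
    exact (hTbH y (hr2 h1) t0 (h2 (hm hy).1) (hm hy).2.1).2
  obtain ⟨e2, he2, he2B, d', h6, h7⟩ := thin_cover hC he1B
    {d | d ∈ A t0 ∧ HB p J j k K' D d t0}
    ((hAf t0).countable.mono fun d hd => hd.1)
    (fun d hd => (hAE _ hd.1).2.1) (by
      intro y hy
      have h8 := ht0 y hy
      rw [hHmem] at h8
      obtain ⟨d, h9, h10, h11⟩ := h8
      simp only [mem_iUnion, exists_prop]
      exact ⟨d, ⟨h9, h10⟩, h11⟩)
  refine h6.2 e2 h7 he2B ?_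
  -- the witness
  obtain ⟨w, hw1, hw2, hw3, hw4⟩ := three_part (q := d) he2B (fun y => sub (d.T j y) t0)
    (measurable_sub (d.meas j) t0) d.S d.scount (by
      intro y y' h
      show sub (d.T j y) t0 = sub (d.T j y') t0
      rw [d.dep j y y' h]) (fun y hy => good_sub (d.good j y) (hm (he2 hy)).1)
  have hwd : w ≤ d := by
    intro y hy i
    have hye2 := hw4 y hy
    rcases lt_trichotomy i j with h1 | h1 | h1
    · exact mem_restr_body.1 (he1 (he2 hye2)) i h1
    · subst h1
      have h2 := hy i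
      rw [hw2 y hye2] at h2
      exact body_mono (fun t ht => ht.1) h2
    · rw [← hw3 i h1 y]; exact hy i
  refine ⟨w, le_trans hwd (hD1 d hdD).1, ?_, hw1, ?_, ⟨max m' t0.length, ?_⟩, {d},
    finite_singleton d, ?_, ?_⟩
  · intro i hi y
    rw [hw3 i (habove i hi) y]
    exact hdB i hi y
  · intro y hy
    rw [hw2 y hy]
    refine ⟨⟨(hm (he2 hy)).1, Or.inl List.prefix_rfl⟩, fun σ hσ => hσ.2, ?_⟩
    intro σ hσ hts
    rw [suc_sub hts]
    exact (hm (he2 hy)).2.2.1 σ hσ.1 hts.length_le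
  · intro y hy σ hσ hl
    rw [hw2 y hy] at hσ ⊢
    rw [suc_sub (prefix_of_mem_sub hσ (le_trans (le_max_right _ _) hl))]
    exact (hm (he2 hy)).2.2.2 σ hσ.1 (le_trans (le_max_left _ _) hl)
  · rintro _ rfl
    exact hdD
  · intro y hy
    simp only [mem_iUnion, exists_prop]
    exact ⟨d, rfl, hwd hy⟩

end claim

end Pool.Agent.FL.H9
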